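import Mathlib

/-!
# MP_d7db32_ag, Eq/R/Adj: the adjugate of a matrix whose determinant is prime

`adj_minor`: the 2×2 minors of the adjugate are multiples of the determinant. (In the field of fractions for invertible `Q`, or: `Q * adj Q = d`, so for fixed `j, j'` the two columns
`x, x'` of `adj Q` satisfy `Q x = d e_j`, `Q x' = d e_j'`. Generic proof: by `Matrix.adjugate` of the matrix of variables over `ℤ` the identity can be checked there, where `d ≠ 0` (`mvPolynomialX`); or directly for a
domain `R` with `d = det Q ≠ 0`: modulo the prime `p` (`det Q = c * p`): the matrix `Q` over the domain `R / p` has determinant `0`, so `Q` has a kernel vector and a left kernel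
vector over the fraction field of `R / p`, and the adjugate has rank at most one there: if the kernel has dimension at least two, the adjugate is zero
(`Matrix.adjugate_apply` and a kernel vector with a zero coordinate); if it has dimension one, every column of the adjugate is a multiple of the kernel vector.) Any proof is fine.
`adj_point`: see the header of the theorem.
-/

set_option autoImplicit false

namespace PadDet.Eq

variable {R : Type} [CommRing R] [IsDomain R]

private theorem Adj_ker {S : Type} [CommRing S] [IsDomain S] {m : ℕ}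
    (B : Matrix (Fin m) (Fin m) S) (v : Fin m → S) (hv : v ≠ 0) (hB : B.mulVec v = 0)
    (i i' j : Fin m) : v i' * B.adjugate i j = v i * B.adjugate i' j := by
  have h1 : (B.updateRow j (v i' • Pi.single i 1 + (-(v i)) • Pi.single i' 1)).det = 0 := by
    rw [← Matrix.exists_mulVec_eq_zero_iff]
    refine ⟨v, hv, ?_⟩
    funext r
    by_cases hr : r = j
    · subst hr
      change (B.updateRow r (v i' • Pi.single i 1 + (-(v i)) • Pi.single i' 1)) r ⬝ᵥ v = 0
      rw [Matrix.updateRow_self, add_dotProduct, smul_dotProduct, smul_dotProduct,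
        single_dotProduct, single_dotProduct, smul_eq_mul, smul_eq_mul]
      ring
    · change (B.updateRow j (v i' • Pi.single i 1 + (-(v i)) • Pi.single i' 1)) r ⬝ᵥ v = 0
      rw [Matrix.updateRow_ne hr]
      exact congrFun hB r
  rw [Matrix.det_updateRow_add, Matrix.det_updateRow_smul, Matrix.det_updateRow_smul,
    ← Matrix.adjugate_apply, ← Matrix.adjugate_apply] at h1
  linear_combination h1

private theorem Adj_minor0 {S : Type} [CommRing S] [IsDomain S] {m : ℕ}
    (B : Matrix (Fin m) (Fin m) S) (hB : B.det = 0) (i j i' j' : Fin m) :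
    B.adjugate i j * B.adjugate i' j' - B.adjugate i j' * B.adjugate i' j = 0 := by
  obtain ⟨v, hv, hv0⟩ := Matrix.exists_mulVec_eq_zero_iff.2 hB
  obtain ⟨a, ha⟩ := Function.ne_iff.1 hv
  have h1 := Adj_ker B v hv hv0 i a j
  have h2 := Adj_ker B v hv hv0 i' a j'
  have h3 := Adj_ker B v hv hv0 i a j'
  have h4 := Adj_ker B v hv hv0 i' a j
  have ha' : v a ^ 2 ≠ 0 := pow_ne_zero 2 ha
  apply mul_left_cancel₀ ha'
  rw [mul_zero]
  linear_combination (v a * B.adjugate i' j') * h1 + (v i * B.adjugate a j) * h2 -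
    (v a * B.adjugate i' j) * h3 - (v i * B.adjugate a j') * h4

theorem adj_minor {m : ℕ} (Q : Matrix (Fin m) (Fin m) R) {c p : R} (hp : Prime p)
    (h : Q.det = c * p) (i j i' j' : Fin m) :
    p ∣ Q.adjugate i j * Q.adjugate i' j' - Q.adjugate i j' * Q.adjugate i' j := by
  have : (Ideal.span {p}).IsPrime := (Ideal.span_singleton_prime hp.ne_zero).2 hp
  have h0 : ((Ideal.Quotient.mk (Ideal.span {p})).mapMatrix Q).det = 0 := by
    rw [← RingHom.map_det, h, Ideal.Quotient.eq_zero_iff_mem, Ideal.mem_span_singleton]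
    exact dvd_mul_left p c
  have h1 := Adj_minor0 _ h0 i j i' j'
  rw [← RingHom.map_adjugate] at h1
  rw [← Ideal.mem_span_singleton, ← Ideal.Quotient.eq_zero_iff_mem, map_sub, map_mul, map_mul]
  exact h1

private theorem Adj_notdvd {m : ℕ} (Q : Matrix (Fin m) (Fin m) R) {c p : R} (hc : IsUnit c)
    (hp : Prime p) (h : Q.det = c * p) (hall : ∀ i j, p ∣ Q.adjugate i j) : False := by
  choose Q' hQ' using hall
  have h1 : Q.adjugate = p • Matrix.of Q' := by
    ext i j
    rw [Matrix.smul_apply, Matrix.of_apply, smul_eq_mul, hQ' i j]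
  have h2 := Q.mul_adjugate
  rw [h1, h, mul_comm c p, mul_smul, Matrix.mul_smul] at h2
  have h3 : Q * Matrix.of Q' = c • (1 : Matrix (Fin m) (Fin m) R) := by
    ext i j
    have h4 := congrFun (congrFun h2 i) j
    rw [Matrix.smul_apply, Matrix.smul_apply, smul_eq_mul, smul_eq_mul] at h4
    exact mul_left_cancel₀ hp.ne_zero h4
  have h5 := congrArg Matrix.det h3
  rw [Matrix.det_mul, Matrix.det_smul, Matrix.det_one, mul_one, h] at h5
  have h6 : IsUnit (c ^ Fintype.card (Fin m)) := hc.pow _
  rw [← h5] at h6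
  exact hp.not_isUnit (isUnit_of_mul_isUnit_right (isUnit_of_mul_isUnit_left h6))

private theorem Adj_half {m : ℕ} (Q : Matrix (Fin m) (Fin m) R) {c p : R} (hc : IsUnit c)
    (hp : Prime p) (h : Q.det = c * p) {v u : Fin m → R}
    (hvu : ∀ i j, p ∣ Q.adjugate i j - v i * u j) :
    ∃ ω : Fin m → R, p ∣ c - ∑ l, u l * ω l := by
  have hu : ∃ j, ¬ p ∣ u j := by
    by_contra hcon
    push Not at hcon
    refine Adj_notdvd Q hc hp h fun i j => ?_
    have h1 := dvd_add (hvu i j) (Dvd.dvd.mul_left (hcon j) (v i))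
    rwa [sub_add_cancel] at h1
  have hv : ∃ i, ¬ p ∣ v i := by
    by_contra hcon
    push Not at hcon
    refine Adj_notdvd Q hc hp h fun i j => ?_
    have h1 := dvd_add (hvu i j) (Dvd.dvd.mul_right (hcon i) (u j))
    rwa [sub_add_cancel] at h1
  obtain ⟨j0, hj0⟩ := hu
  obtain ⟨i0, hi0⟩ := hv
  have h1 : ∀ i, p ∣ ∑ l, Q i l * v l := by
    intro i
    have h2 := congrFun (congrFun Q.mul_adjugate i) j0
    rw [Matrix.mul_apply, Matrix.smul_apply, smul_eq_mul, h] at h2
    have h3 : p ∣ ∑ l, Q i l * (Q.adjugate l j0 - v l * u j0) :=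
      Finset.dvd_sum fun l _ => Dvd.dvd.mul_left (hvu l j0) (Q i l)
    have h4 : ∑ l, Q i l * (Q.adjugate l j0 - v l * u j0) =
        ∑ l, Q i l * Q.adjugate l j0 - (∑ l, Q i l * v l) * u j0 := by
      rw [Finset.sum_mul, ← Finset.sum_sub_distrib]
      exact Finset.sum_congr rfl fun l _ => by ring
    rw [h4, h2] at h3
    have h5 : p ∣ c * p * (1 : Matrix (Fin m) (Fin m) R) i j0 :=
      Dvd.dvd.mul_right (dvd_mul_left p c) _
    have h6 : p ∣ (∑ l, Q i l * v l) * u j0 := by
      have h7 := dvd_sub h5 h3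
      rwa [sub_sub_cancel] at h7
    exact (hp.dvd_or_dvd h6).resolve_right hj0
  choose ω hω using h1
  refine ⟨ω, ?_⟩
  have h2 : c * v i0 = ∑ l, Q.adjugate i0 l * ω l := by
    apply mul_left_cancel₀ hp.ne_zero
    have h3 : Q.adjugate.mulVec (Q.mulVec v) = (c * p) • v := by
      rw [Matrix.mulVec_mulVec, Q.adjugate_mul, h, Matrix.smul_mulVec, Matrix.one_mulVec]
    have h4 := congrFun h3 i0
    rw [Pi.smul_apply, smul_eq_mul] at h4
    have h5 : Q.adjugate.mulVec (Q.mulVec v) i0 = ∑ l, Q.adjugate i0 l * (p * ω l) := by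
      change ∑ l, Q.adjugate i0 l * (∑ k, Q l k * v k) = _
      exact Finset.sum_congr rfl fun l _ => by rw [hω l]
    rw [h5] at h4
    rw [Finset.mul_sum]
    calc p * (c * v i0) = c * p * v i0 := by ring
      _ = ∑ l, Q.adjugate i0 l * (p * ω l) := h4.symm
      _ = ∑ l, p * (Q.adjugate i0 l * ω l) := Finset.sum_congr rfl fun l _ => by ring
  have h3 : p ∣ v i0 * (c - ∑ l, u l * ω l) := by
    have h4 : p ∣ ∑ l, (Q.adjugate i0 l - v i0 * u l) * ω l :=
      Finset.dvd_sum fun l _ => Dvd.dvd.mul_right (hvu i0 l) (ω l)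
    have h5 : ∑ l, (Q.adjugate i0 l - v i0 * u l) * ω l = v i0 * (c - ∑ l, u l * ω l) := by
      rw [mul_sub, mul_comm (v i0) c, h2, Finset.mul_sum, ← Finset.sum_sub_distrib]
      exact Finset.sum_congr rfl fun l _ => by ring
    rwa [h5] at h4
  exact (hp.dvd_or_dvd h3).resolve_left hi0

/-- `Q` with `det Q = c p`, `c` a unit, `p` prime; `adj Q = v u` modulo `p`. Then `v` and `u` are unimodular modulo `p`. Some `u j` is not divisible by `p` (else `adj Q = p Q'`, `Q Q' = c`,
`det Q` is a unit), the same for `v`. `Q adj Q = c p` gives `p ∣ (Q v) i * u j`, so `Q v = p ω`; then `c p v = adj Q Q v = p adj Q ω`, so `c v = adj Q ω ≡ v (u ω)`, and some `v i` is not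
divisible by `p`, so `p ∣ c - u ω`. The other statement with `adj Q * Q`. -/
theorem adj_unimod {m : ℕ} (hm : m ≠ 0) (Q : Matrix (Fin m) (Fin m) R) {c p : R} (hc : IsUnit c)
    (hp : Prime p) (h : Q.det = c * p) {v u : Fin m → R}
    (hvu : ∀ i j, p ∣ Q.adjugate i j - v i * u j) :
    (∃ ω : Fin m → R, p ∣ c - ∑ l, u l * ω l) ∧ ∃ ω : Fin m → R, p ∣ c - ∑ l, ω l * v l := by
  refine ⟨Adj_half Q hc hp h hvu, ?_⟩
  have h1 : ∀ i j, p ∣ Q.transpose.adjugate i j - u i * v j := by
    intro i j
    rw [← Matrix.adjugate_transpose, Matrix.transpose_apply, mul_comm (u i)]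
    exact hvu j i
  obtain ⟨ω, hω⟩ := Adj_half Q.transpose hc hp (by rw [Matrix.det_transpose, h]) h1
  refine ⟨ω, ?_⟩
  have h2 : ∑ l, ω l * v l = ∑ l, v l * ω l := Finset.sum_congr rfl fun l _ => mul_comm _ _
  rw [h2]
  exact hω

end PadDet.Eq
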