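import Pool.Agent.H.MP_d7db32_ag.Eq.R.Pd
import Pool.Agent.H.MP_d7db32_ag.Eq.CaseD
import Pool.Agent.H.MP_d7db32_ag.Eq.L.Pol

/-!
# MP_d7db32_ag, Eq/R/Cyc: the values of the form on the cycle

`cyM g y`: the matrix with the entries `g j` at `(j, j + 1)`, `- g j` at `(j + 1, j)` and `y i` at `(i, i)`.
`pth_det`: the skew tridiagonal matrix of a path with `2 k` vertices: expand along the first row (one nonzero entry `h 0` in the column `1`), then along the first column (one nonzero entry `- h 0`):
`det = h 0 ^ 2 * det` of the path without the first two vertices. Induction.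
`cyc_val`: `X - Xᵀ = 2 A`, `X + Xᵀ = 2 diagonal y`, `Fv X = trace (adj (2 A) * 2 diagonal y) = 2 ^ (2 k) * 2 * ∑ i, y i * (adj A) i i` (`Matrix.adjugate_smul`). `(adj A) i i` is the determinant of `A` without row and column
`i`; rotate by `i` (`Matrix.adjugate_submatrix_equiv_self` with the rotation `x ↦ x + i + 1` or so, `finRotate`, so that the removed vertex is the last or the first one, `Matrix.adjugate_fin_succ_eq_det_submatrix`): it is the path
with the edges `i + 1, i + 2, ..., i + 2 k - 1`, so the determinant is `wcr k g i ^ 2`.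
-/

set_option autoImplicit false

namespace PadDet.Eq

open Matrix

/-- The skew tridiagonal matrix of a path. -/
def pth (m : ℕ) (h : ℕ → ℂ) : Matrix (Fin m) (Fin m) ℂ :=
  Matrix.of fun a b => if b.val = a.val + 1 then h a.val else if a.val = b.val + 1 then -h b.val else 0

private theorem Cyc_step (m : ℕ) (h : ℕ → ℂ) :
    (pth (m + 2) h).det = h 0 ^ 2 * (pth m fun t => h (t + 2)).det := by
  rw [Matrix.det_succ_row_zero, Finset.sum_eq_single (1 : Fin (m + 2))]
  · rw [Matrix.det_succ_column_zero, Finset.sum_eq_single (0 : Fin (m + 1))]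
    · have h1 : pth (m + 2) h 0 1 = h 0 := by
        unfold pth
        rw [Matrix.of_apply, if_pos (by simp)]
        rfl
      have h2 : (pth (m + 2) h).submatrix Fin.succ (Fin.succAbove 1) 0 0 = - h 0 := by
        rw [Matrix.submatrix_apply]
        have h3 : Fin.succAbove (1 : Fin (m + 2)) 0 = 0 := by
          rw [Fin.succAbove_of_castSucc_lt]
          · rfl
          · rw [Fin.lt_def]; simp
        rw [h3]
        unfold pth
        rw [Matrix.of_apply, if_neg (by simp), if_pos (by simp)]
        simp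
      have h4 : ((pth (m + 2) h).submatrix Fin.succ (Fin.succAbove 1)).submatrix
          (Fin.succAbove 0) Fin.succ = pth m fun t => h (t + 2) := by
        ext a b
        rw [Matrix.submatrix_apply, Matrix.submatrix_apply]
        have h5 : Fin.succAbove (1 : Fin (m + 2)) b.succ = b.succ.succ := by
          rw [Fin.succAbove_of_le_castSucc]
          rw [Fin.le_def]; simp
        rw [h5, Fin.succAbove_zero]
        unfold pth
        rw [Matrix.of_apply, Matrix.of_apply]
        simp only [Fin.val_succ]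
        by_cases h6 : b.val = a.val + 1
        · rw [if_pos (by omega), if_pos h6]
        · rw [if_neg (by omega), if_neg h6]
          by_cases h7 : a.val = b.val + 1
          · rw [if_pos (by omega), if_pos h7]
          · rw [if_neg (by omega), if_neg h7]
      rw [h1, h2, h4]
      simp only [Fin.val_one, Fin.val_zero, pow_zero, pow_one]
      ring
    · intro i _ hi
      have h3 : Fin.succAbove (1 : Fin (m + 2)) 0 = 0 := by
        rw [Fin.succAbove_of_castSucc_lt]
        · rfl
        · rw [Fin.lt_def]; simp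
      have h2 : (pth (m + 2) h).submatrix Fin.succ (Fin.succAbove 1) i 0 = 0 := by
        rw [Matrix.submatrix_apply, h3]
        unfold pth
        have h8 : i.val ≠ 0 := fun h9 => hi (Fin.ext h9)
        rw [Matrix.of_apply, if_neg (by simp), if_neg (by simp; omega)]
      rw [h2]
      ring
    · intro h9
      exact absurd (Finset.mem_univ _) h9
  · intro j _ hj
    have h2 : pth (m + 2) h 0 j = 0 := by
      unfold pth
      have h8 : j.val ≠ 1 := fun h9 => hj (Fin.ext (by rw [h9]; simp))
      rw [Matrix.of_apply, if_neg (by simpa using h8), if_neg (by simp)]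
    rw [h2]
    ring
  · intro h9
    exact absurd (Finset.mem_univ _) h9

theorem pth_det (k : ℕ) (h : ℕ → ℂ) :
    (pth (2 * k) h).det = (∏ s ∈ Finset.range k, h (2 * s)) ^ 2 := by
  induction k generalizing h with
  | zero => simp
  | succ k ih =>
    have h1 : (pth (2 * (k + 1)) h).det = (pth (2 * k + 2) h).det := rfl
    rw [h1, Cyc_step, ih, Finset.prod_range_succ']
    have h2 : ∀ s : ℕ, 2 * s + 2 = 2 * (s + 1) := fun s => by ring
    simp only [h2, Nat.mul_zero]
    ring

/-- The next vertex of the cycle. -/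
def nx (k : ℕ) (j : Fin (2 * k + 1)) : Fin (2 * k + 1) := Fin.ofNat (2 * k + 1) (j.val + 1)

/-- The matrix of the cycle, linear in the edges and the vertices. -/
noncomputable def cyM (k : ℕ) (g y : Fin (2 * k + 1) → ℂ) :
    Matrix (Fin (2 * k + 1)) (Fin (2 * k + 1)) ℂ :=
  ∑ j, (g j • (Matrix.single j (nx k j) 1 - Matrix.single (nx k j) j 1)) +
    ∑ i, y i • Matrix.single i i 1

private noncomputable def Cyc_A (k : ℕ) (g : Fin (2 * k + 1) → ℂ) :
    Matrix (Fin (2 * k + 1)) (Fin (2 * k + 1)) ℂ :=
  ∑ j, (g j • (Matrix.single j (nx k j) 1 - Matrix.single (nx k j) j 1))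

private theorem Cyc_A_apply (k : ℕ) (g : Fin (2 * k + 1) → ℂ) (p q : Fin (2 * k + 1)) :
    Cyc_A k g p q = (if q = nx k p then g p else 0) - (if p = nx k q then g q else 0) := by
  unfold Cyc_A
  rw [Matrix.sum_apply]
  simp only [Matrix.smul_apply, Matrix.sub_apply, smul_eq_mul, Matrix.single_apply, mul_sub,
    Finset.sum_sub_distrib]
  congr 1
  · rw [Finset.sum_eq_single p]
    · by_cases h : q = nx k p
      · rw [if_pos h, if_pos ⟨rfl, h.symm⟩, mul_one]
      · rw [if_neg h, if_neg (fun h' => h h'.2.symm), mul_zero]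
    · intro j _ hj
      rw [if_neg (fun h' => hj h'.1), mul_zero]
    · intro h9
      exact absurd (Finset.mem_univ _) h9
  · rw [Finset.sum_eq_single q]
    · by_cases h : p = nx k q
      · rw [if_pos h, if_pos ⟨h.symm, rfl⟩, mul_one]
      · rw [if_neg h, if_neg (fun h' => h h'.1.symm), mul_zero]
    · intro j _ hj
      rw [if_neg (fun h' => hj h'.2), mul_zero]
    · intro h9
      exact absurd (Finset.mem_univ _) h9

private theorem Cyc_A_skew (k : ℕ) (g : Fin (2 * k + 1) → ℂ) :
    (Cyc_A k g)ᵀ = - Cyc_A k g := by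
  ext p q
  rw [Matrix.transpose_apply, Matrix.neg_apply, Cyc_A_apply, Cyc_A_apply]
  ring

private theorem Cyc_rot {k : ℕ} (i : Fin (2 * k + 1)) (a b : Fin (2 * k)) :
    (b.succ + i = nx k (a.succ + i)) ↔ b.val = a.val + 1 := by
  rw [Fin.ext_iff]
  unfold nx
  rw [Fin.val_ofNat, Fin.val_add, Fin.val_add, Fin.val_succ, Fin.val_succ]
  have ha := a.isLt
  have hb := b.isLt
  have h1 : ((a.val + 1 + i.val) % (2 * k + 1) + 1) % (2 * k + 1) =
      (i.val + 1 + (a.val + 1)) % (2 * k + 1) := by
    rw [Nat.mod_add_mod]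
    congr 1
    ring
  have h2 : (b.val + 1 + i.val) % (2 * k + 1) = (i.val + 1 + b.val) % (2 * k + 1) := by
    congr 1
    ring
  rw [h1, h2]
  constructor
  · intro h
    have h3 : b.val ≡ a.val + 1 [MOD 2 * k + 1] := Nat.ModEq.add_left_cancel' _ h
    have h4 : b.val % (2 * k + 1) = (a.val + 1) % (2 * k + 1) := h3
    rw [Nat.mod_eq_of_lt (by omega), Nat.mod_eq_of_lt (by omega)] at h4
    exact h4
  · intro h
    rw [h]

private theorem Cyc_adj (k : ℕ) (g : Fin (2 * k + 1) → ℂ) (i : Fin (2 * k + 1)) :
    (Cyc_A k g).adjugate i i = wcr k g i ^ 2 := by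
  have h1 : (Cyc_A k g).adjugate i i =
      ((Cyc_A k g).submatrix (Equiv.addRight i) (Equiv.addRight i)).adjugate 0 0 := by
    rw [Matrix.adjugate_submatrix_equiv_self, Matrix.submatrix_apply]
    simp
  rw [h1, Matrix.adjugate_fin_succ_eq_det_submatrix]
  have h2 : ((Cyc_A k g).submatrix (Equiv.addRight i) (Equiv.addRight i)).submatrix
      (Fin.succAbove 0) (Fin.succAbove 0) =
      pth (2 * k) fun t => g (Fin.ofNat (2 * k + 1) (i.val + 1 + t)) := by
    ext a b
    rw [Matrix.submatrix_apply, Matrix.submatrix_apply, Cyc_A_apply]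
    simp only [Fin.succAbove_zero, Equiv.coe_addRight]
    unfold pth
    rw [Matrix.of_apply]
    have hg : ∀ c : Fin (2 * k), g (c.succ + i) = g (Fin.ofNat (2 * k + 1) (i.val + 1 + c.val)) := by
      intro c
      congr 1
      rw [Fin.ext_iff, Fin.val_add, Fin.val_succ, Fin.val_ofNat]
      congr 1
      ring
    rw [hg a, hg b]
    by_cases h3 : b.val = a.val + 1
    · rw [if_pos ((Cyc_rot i a b).2 h3), if_neg (fun h => by
        have := (Cyc_rot i b a).1 h
        omega), if_pos h3, sub_zero]
    · rw [if_neg (fun h => h3 ((Cyc_rot i a b).1 h)), if_neg h3]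
      by_cases h4 : a.val = b.val + 1
      · rw [if_pos ((Cyc_rot i b a).2 h4), if_pos h4, zero_sub]
      · rw [if_neg (fun h => h4 ((Cyc_rot i b a).1 h)), if_neg h4, sub_zero]
  rw [h2, pth_det]
  unfold wcr ed
  simp

theorem cyc_val {k : ℕ} (hk : 1 ≤ k) (g y : Fin (2 * k + 1) → ℂ) :
    Fv (cyM k g y) = 2 ^ (2 * k + 1) * ∑ i, wcr k g i ^ 2 * y i := by
  have hD : (∑ i, y i • Matrix.single i i (1 : ℂ) : Matrix (Fin (2 * k + 1)) (Fin (2 * k + 1)) ℂ) =
      Matrix.diagonal y := by
    ext p q
    rw [Matrix.sum_apply, Matrix.diagonal_apply, Finset.sum_eq_single p]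
    · rw [Matrix.smul_apply, Matrix.single_apply, smul_eq_mul]
      by_cases h : p = q
      · rw [if_pos ⟨rfl, h⟩, if_pos h, mul_one]
      · rw [if_neg (fun h' => h h'.2), if_neg h, mul_zero]
    · intro j _ hj
      rw [Matrix.smul_apply, Matrix.single_apply, if_neg (fun h' => hj h'.1), smul_zero]
    · intro h9
      exact absurd (Finset.mem_univ _) h9
  have hX : cyM k g y = Cyc_A k g + Matrix.diagonal y := by
    unfold cyM
    rw [hD]
    rfl
  have h1 : cyM k g y - (cyM k g y)ᵀ = (2 : ℂ) • Cyc_A k g := by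
    rw [hX, Matrix.transpose_add, Cyc_A_skew, Matrix.diagonal_transpose, two_smul]
    abel
  have h2 : cyM k g y + (cyM k g y)ᵀ = (2 : ℂ) • Matrix.diagonal y := by
    rw [hX, Matrix.transpose_add, Cyc_A_skew, Matrix.diagonal_transpose, two_smul]
    abel
  unfold Fv
  rw [h1, h2, Matrix.adjugate_smul, Fintype.card_fin, Nat.add_sub_cancel, Matrix.smul_mul,
    Matrix.mul_smul, Matrix.trace_smul, Matrix.trace_smul, smul_eq_mul, smul_eq_mul]
  have h3 : ((Cyc_A k g).adjugate * Matrix.diagonal y).trace = ∑ i, wcr k g i ^ 2 * y i := by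
    unfold Matrix.trace
    refine Finset.sum_congr rfl fun i _ => ?_
    rw [Matrix.diag_apply, Matrix.mul_diagonal, Cyc_adj]
  rw [h3]
  ring

end PadDet.Eq
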