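import Pool.Agent.H.MP_d7db32_ag.Eq.R.Prm

/-!
# MP_d7db32_ag, Eq/R/Elm: elimination of the variable `y 0`

`elm`: `wc 0 ^ 2 * y 0 = pc - ∑ i ≠ 0, wc i ^ 2 * y i`. Induction on `a` (`MvPolynomial.induction_on`): constants with `d = 0`; sums: multiply with powers to a common `d` (`wc k 0` is free of `y 0`); `a * X v`: for `v ≠ inr 0` clear, for
`v = inr 0` use the relation (`d + 1`). Free of `y 0` = `degreeOf (Sum.inr 0) a = 0` (`degreeOf_mul_le`, `degreeOf_add_le`, `degreeOf_X`, `degreeOf_C`).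
`elm_zero`: if `a' = pc * q ≠ 0` then the degree of `a'` in `y 0` is the sum of the degrees of `pc` (`1`) and `q` (`degreeOf_mul_eq` or pass to
`MvPolynomial.finSuccEquiv`/`optionEquivLeft`; the ring is a domain; the coefficient `wc k 0 ^ 2` is not zero).
-/

set_option autoImplicit false

namespace PadDet.Eq

open MvPolynomial

/-- Free of the variable `v`. -/
private def Fr {k : ℕ} (v : Fin (2 * k + 1) ⊕ Fin (2 * k + 1)) (a : PR k) : Prop :=
  degreeOf v a = 0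

private theorem Fr.add {k : ℕ} {v : Fin (2 * k + 1) ⊕ Fin (2 * k + 1)} {a b : PR k}
    (ha : Fr v a) (hb : Fr v b) : Fr v (a + b) := by
  have h := degreeOf_add_le v a b
  unfold Fr at *
  rw [ha, hb] at h
  simpa using h

private theorem Fr.neg {k : ℕ} {v : Fin (2 * k + 1) ⊕ Fin (2 * k + 1)} {a : PR k}
    (ha : Fr v a) : Fr v (-a) := by
  unfold Fr at *
  rw [degreeOf_neg, ha]

private theorem Fr.mul {k : ℕ} {v : Fin (2 * k + 1) ⊕ Fin (2 * k + 1)} {a b : PR k}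
    (ha : Fr v a) (hb : Fr v b) : Fr v (a * b) := by
  have h := degreeOf_mul_le v a b
  unfold Fr at *
  rw [ha, hb] at h
  simpa using h

private theorem Fr.X {k : ℕ} {v w : Fin (2 * k + 1) ⊕ Fin (2 * k + 1)} (h : v ≠ w) :
    Fr v (MvPolynomial.X w : PR k) := by
  classical
  unfold Fr
  rw [degreeOf_X, if_neg h]

private theorem Fr.C {k : ℕ} (v : Fin (2 * k + 1) ⊕ Fin (2 * k + 1)) (c : ℂ) :
    Fr v (MvPolynomial.C c : PR k) := degreeOf_C c v

private theorem Fr.one {k : ℕ} (v : Fin (2 * k + 1) ⊕ Fin (2 * k + 1)) : Fr v (1 : PR k) := by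
  rw [← MvPolynomial.C_1]
  exact Fr.C v 1

private theorem Fr.prod {k : ℕ} {ι : Type} (v : Fin (2 * k + 1) ⊕ Fin (2 * k + 1)) (s : Finset ι)
    (f : ι → PR k) (h : ∀ i ∈ s, Fr v (f i)) : Fr v (∏ i ∈ s, f i) :=
  Finset.prod_induction f (Fr v) (fun _ _ ha hb => ha.mul hb) (Fr.one v) h

private theorem Fr.sum {k : ℕ} {ι : Type} (v : Fin (2 * k + 1) ⊕ Fin (2 * k + 1)) (s : Finset ι)
    (f : ι → PR k) (h : ∀ i ∈ s, Fr v (f i)) : Fr v (∑ i ∈ s, f i) :=
  Finset.sum_induction f (Fr v) (fun _ _ ha hb => ha.add hb)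
    (by rw [← MvPolynomial.C_0]; exact Fr.C v 0) h

private theorem Fr.pow {k : ℕ} {v : Fin (2 * k + 1) ⊕ Fin (2 * k + 1)} {a : PR k}
    (ha : Fr v a) (n : ℕ) : Fr v (a ^ n) := by
  induction n with
  | zero => rw [pow_zero]; exact Fr.one v
  | succ n ih => rw [pow_succ]; exact ih.mul ha

private theorem Fr.wc {k : ℕ} (j i : Fin (2 * k + 1)) : Fr (Sum.inr j) (wc k i) :=
  Fr.prod _ _ _ fun _ _ => Fr.X Sum.inr_ne_inl

/-- the part of `pc` free of `y 0` -/
private noncomputable def rest (k : ℕ) : PR k :=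
  ∑ i ∈ Finset.univ.erase (0 : Fin (2 * k + 1)), PadDet.Eq.wc k i ^ 2 * MvPolynomial.X (Sum.inr i)

private theorem rest_fr (k : ℕ) : Fr (Sum.inr 0) (rest k) := by
  refine Fr.sum _ _ _ fun i hi => ((Fr.wc 0 i).pow 2).mul (Fr.X ?_)
  intro h
  exact (Finset.mem_erase.mp hi).1 (Sum.inr_injective h).symm

private theorem pc_eq (k : ℕ) :
    pc k = PadDet.Eq.wc k 0 ^ 2 * MvPolynomial.X (Sum.inr 0) + rest k := by
  rw [pc, rest]
  exact (Finset.add_sum_erase Finset.univ _ (Finset.mem_univ 0)).symm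

private theorem wc_ne (k : ℕ) (i : Fin (2 * k + 1)) : PadDet.Eq.wc k i ≠ 0 := by
  unfold PadDet.Eq.wc wcr
  exact Finset.prod_ne_zero_iff.mpr fun _ _ => MvPolynomial.X_ne_zero _

theorem elm {k : ℕ} (a : PR k) : ∃ (d : ℕ) (a' : PR k),
    degreeOf (Sum.inr 0) a' = 0 ∧ pc k ∣ wc k 0 ^ d * a - a' := by
  induction a using MvPolynomial.induction_on with
  | C c => exact ⟨0, MvPolynomial.C c, Fr.C _ c, by simp⟩
  | add a b ha hb =>
    obtain ⟨d, a', h1, h2⟩ := ha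
    obtain ⟨e, b', h3, h4⟩ := hb
    refine ⟨d + e, wc k 0 ^ e * a' + wc k 0 ^ d * b',
      Fr.add (((Fr.wc 0 0).pow e).mul h1) (((Fr.wc 0 0).pow d).mul h3), ?_⟩
    have h5 := (h2.mul_left (wc k 0 ^ e)).add (h4.mul_left (wc k 0 ^ d))
    have h6 : wc k 0 ^ (d + e) * (a + b) - (wc k 0 ^ e * a' + wc k 0 ^ d * b') =
        wc k 0 ^ e * (wc k 0 ^ d * a - a') + wc k 0 ^ d * (wc k 0 ^ e * b - b') := by ring
    rw [h6]
    exact h5
  | mul_X a v ha =>
    obtain ⟨d, a', h1, h2⟩ := ha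
    by_cases hv : v = Sum.inr 0
    · subst hv
      refine ⟨d + 2, -(a' * rest k), Fr.neg (Fr.mul h1 (rest_fr k)), ?_⟩
      have h6 : wc k 0 ^ (d + 2) * (a * MvPolynomial.X (Sum.inr 0)) - -(a' * rest k) =
          wc k 0 ^ 2 * MvPolynomial.X (Sum.inr 0) * (wc k 0 ^ d * a - a') + a' * pc k := by
        rw [pc_eq]
        ring
      rw [h6]
      exact (h2.mul_left _).add (dvd_mul_left _ _)
    · refine ⟨d, a' * MvPolynomial.X v, Fr.mul h1 (Fr.X (Ne.symm hv)), ?_⟩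
      have h6 : wc k 0 ^ d * (a * MvPolynomial.X v) - a' * MvPolynomial.X v =
          (wc k 0 ^ d * a - a') * MvPolynomial.X v := by ring
      rw [h6]
      exact h2.mul_right _

theorem elm_zero {k : ℕ} {a : PR k} (h : degreeOf (Sum.inr 0) a = 0) (hd : pc k ∣ a) : a = 0 := by
  classical
  by_contra h0
  obtain ⟨q, rfl⟩ := hd
  have hp : pc k ≠ 0 := fun h1 => h0 (by rw [h1, zero_mul])
  have hq : q ≠ 0 := fun h1 => h0 (by rw [h1, mul_zero])
  rw [degreeOf_mul_eq hp hq] at h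
  have h1 : Fr (Sum.inr 0) (pc k) := (Nat.add_eq_zero_iff.mp h).1
  have h2 : Fr (Sum.inr 0) (wc k 0 ^ 2 * MvPolynomial.X (Sum.inr 0) : PR k) := by
    have h3 : (wc k 0 ^ 2 * MvPolynomial.X (Sum.inr 0) : PR k) = pc k + -rest k := by
      rw [pc_eq]
      ring
    rw [h3]
    exact h1.add (rest_fr k).neg
  unfold Fr at h2
  rw [degreeOf_mul_eq (pow_ne_zero 2 (wc_ne k 0)) (MvPolynomial.X_ne_zero _), degreeOf_X,
    if_pos rfl] at h2
  omega

end PadDet.Eq
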