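import Mathlib

/-!
# MP_d7db32_ag, Eq/R/Rk1: matrices of rank one over a factorial ring

If `N ≠ 0` let `N i₀ j₀ ≠ 0`, `d` the gcd of the column `j₀` (`UniqueFactorizationMonoid.toGCDMonoid` or `toNormalizedGCDMonoid`, `Finset.gcd`), `N i j₀ = d * v i`, the gcd of `v` is `1`.
From `N i j * N i₁ j₀ = N i₁ j * N i j₀`: `N i j * v i₁ = N i₁ j * v i`, so `v i₁` divides `N i₁ j * v i` for all `i`, so `v i₁` divides `N i₁ j`
(`Finset.gcd_mul_left`). With `v i₁ ≠ 0` put `u j = N i₁ j / v i₁`.
-/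

set_option autoImplicit false

namespace PadDet.Eq

private theorem Rk1_fun {R : Type} [CommRing R] [IsDomain R] [UniqueFactorizationMonoid R] {m : ℕ}
    (N : Fin m → Fin m → R) (h : ∀ i j i' j', N i j * N i' j' = N i j' * N i' j) :
    ∃ v u : Fin m → R, ∀ i j, N i j = v i * u j := by
  classical
  by_cases hN : ∀ i j, N i j = 0
  · exact ⟨0, 0, fun i j => by simp [hN i j]⟩
  · push Not at hN
    obtain ⟨i₀, j₀, hn⟩ := hN
    let _ : StrongNormalizationMonoid R := UniqueFactorizationMonoid.strongNormalizationMonoid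
    let _ : NormalizedGCDMonoid R := UniqueFactorizationMonoid.toNormalizedGCDMonoid R
    obtain ⟨v, hv, hg⟩ := Finset.extract_gcd (s := (Finset.univ : Finset (Fin m)))
      (fun i => N i j₀) ⟨i₀, Finset.mem_univ _⟩
    set d : R := (Finset.univ : Finset (Fin m)).gcd (fun i => N i j₀) with hd
    have hv' : ∀ i, N i j₀ = d * v i := fun i => hv i (Finset.mem_univ _)
    have hd0 : d ≠ 0 := fun h0 => hn (by rw [hv' i₀, h0, zero_mul])
    have hv0 : v i₀ ≠ 0 := fun h0 => hn (by rw [hv' i₀, h0, mul_zero])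
    have key : ∀ i j, N i j * v i₀ = v i * N i₀ j := by
      intro i j
      have h1 := h i j i₀ j₀
      rw [hv' i₀, hv' i] at h1
      refine mul_left_cancel₀ hd0 ?_
      linear_combination h1
    have hdv : ∀ j, v i₀ ∣ N i₀ j := by
      intro j
      have h2 : v i₀ ∣ (Finset.univ : Finset (Fin m)).gcd (fun i => N i₀ j * v i) :=
        Finset.dvd_gcd fun i _ => ⟨N i j, by rw [mul_comm (v i₀), key i j, mul_comm]⟩
      have h3 := Finset.gcd_mul_left' (Finset.univ : Finset (Fin m)) v (N i₀ j)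
      rw [hg, mul_one] at h3
      exact h2.trans h3.dvd
    choose u hu using hdv
    refine ⟨v, u, fun i j => mul_right_cancel₀ hv0 ?_⟩
    rw [key i j, hu j]
    ring

theorem rank_one {R : Type} [CommRing R] [IsDomain R] [UniqueFactorizationMonoid R] {m : ℕ}
    (N : Matrix (Fin m) (Fin m) R) (h : ∀ i j i' j', N i j * N i' j' = N i j' * N i' j) :
    ∃ v u : Fin m → R, ∀ i j, N i j = v i * u j :=
  Rk1_fun (fun i j => N i j) h

end PadDet.Eq
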