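import Pool.Agent.H.MP_d7db32_ag.Eq.R.Elm
import Pool.Agent.H.MP_d7db32_ag.Eq.R.Rk1

/-!
# MP_d7db32_ag, Eq/R/Fct: a matrix which has rank one modulo `pc` is a product modulo `pc`

(1) A common `d` for all entries (`elm`): `wc k 0 ^ d * N i j ≡ N' i j`, `N' i j` free of `y 0`. The 2×2 minors of `N'` are free of `y 0` and divisible by `pc`, so they are `0` (`elm_zero`), `rank_one`:
`N' i j = v i * u j`.
(2) `fct_down`: for a list (or multiset, or `s` in `Finset.range`) of edges: if `pc ∣ (g * W) * N i j - v i * u j` for all `i, j`, `g = X (inl j₀)`, then there are `v', u'` with `pc ∣ W * N i j - v' i * u' j`: by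
`mod_prime` every product `v i * u j` is in `(g, pc)`; if some `v i₀` is not in it then all `u j = g * u' j + pc * ..`; and `pc` is prime and does not divide `g` (`g_not`), so `g` can be cancelled.
(3) `wc k 0 ^ d` is a product of edge variables; induction on the number of the factors.
-/

set_option autoImplicit false

namespace PadDet.Eq

open MvPolynomial

theorem fct_down {k m : ℕ} (hk : 1 ≤ k) (l : List (Fin (2 * k + 1)))
    (N : Matrix (Fin m) (Fin m) (PR k)) (v u : Fin m → PR k)
    (h : ∀ i j, pc k ∣ (l.map fun e => (X (Sum.inl e) : PR k)).prod * N i j - v i * u j) :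
    ∃ v' u' : Fin m → PR k, ∀ i j, pc k ∣ N i j - v' i * u' j := by
  induction l generalizing v u with
  | nil =>
    refine ⟨v, u, fun i j => ?_⟩
    have h1 := h i j
    rw [List.map_nil, List.prod_nil, one_mul] at h1
    exact h1
  | cons e l ih =>
    set g : PR k := X (Sum.inl e) with hg
    set W : PR k := (l.map fun e => (X (Sum.inl e) : PR k)).prod with hW
    have h1 : ∀ i j, pc k ∣ g * W * N i j - v i * u j := fun i j => by
      have h2 := h i j
      rw [List.map_cons, List.prod_cons] at h2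
      exact h2
    have hcancel : ∀ c : PR k, pc k ∣ g * c → pc k ∣ c := fun c hc =>
      ((pc_prime hk).dvd_or_dvd hc).resolve_left (g_not e)
    by_cases hv : ∀ i, ∃ a b, v i = g * a + pc k * b
    · choose v' b hb using hv
      refine ih v' u fun i j => hcancel _ ?_
      obtain ⟨c, hc⟩ := h1 i j
      refine ⟨c + b i * u j, ?_⟩
      have h3 := hb i
      rw [h3] at hc
      linear_combination hc
    · push Not at hv
      obtain ⟨i₀, hi₀⟩ := hv
      have hu : ∀ j, ∃ a b, u j = g * a + pc k * b := by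
        intro j
        obtain ⟨c, hc⟩ := h1 i₀ j
        have h4 : ∃ a q, v i₀ * u j = X (Sum.inl e) * a + pc k * q :=
          ⟨W * N i₀ j, -c, by rw [← hg]; linear_combination -hc⟩
        rcases mod_prime hk e h4 with ⟨a, q, h5⟩ | ⟨a, q, h5⟩
        · exact absurd h5 (hi₀ a q)
        · exact ⟨a, q, h5⟩
      choose u' b hb using hu
      refine ih v u' fun i j => hcancel _ ?_
      obtain ⟨c, hc⟩ := h1 i j
      refine ⟨c + v i * b j, ?_⟩
      have h3 := hb j
      rw [h3] at hc
      linear_combination hc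

private theorem Fct_mul {k : ℕ} {a b : PR k} (ha : degreeOf (Sum.inr 0) a = 0)
    (hb : degreeOf (Sum.inr 0) b = 0) : degreeOf (Sum.inr 0) (a * b) = 0 := by
  have h1 := degreeOf_mul_le (Sum.inr (0 : Fin (2 * k + 1))) a b
  omega

private theorem Fct_sub {k : ℕ} {a b : PR k} (ha : degreeOf (Sum.inr 0) a = 0)
    (hb : degreeOf (Sum.inr 0) b = 0) : degreeOf (Sum.inr 0) (a - b) = 0 := by
  have h1 := degreeOf_sub_le (Sum.inr (0 : Fin (2 * k + 1))) a b
  rw [ha, hb, max_self] at h1
  omega

private theorem Fct_wc (k : ℕ) (e : ℕ) :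
    degreeOf (Sum.inr (0 : Fin (2 * k + 1))) (wc k 0 ^ e) = 0 := by
  have h1 : degreeOf (Sum.inr (0 : Fin (2 * k + 1))) (wc k 0) = 0 := by
    unfold wc wcr
    have h2 := degreeOf_prod_le (Sum.inr (0 : Fin (2 * k + 1))) (Finset.range k)
      (fun s => (X (Sum.inl (ed k 0 s)) : PR k))
    have h3 : ∑ s ∈ Finset.range k,
        degreeOf (Sum.inr (0 : Fin (2 * k + 1))) (X (Sum.inl (ed k 0 s)) : PR k) = 0 :=
      Finset.sum_eq_zero fun s _ => degreeOf_X_of_ne (by simp)
    exact Nat.le_zero.mp (h2.trans_eq h3)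
  have h4 := degreeOf_pow_le (Sum.inr (0 : Fin (2 * k + 1))) (wc k 0) e
  rw [h1, mul_zero] at h4
  omega

private theorem Fct_list (k : ℕ) (d : ℕ) : ∃ l : List (Fin (2 * k + 1)),
    (l.map fun e => (X (Sum.inl e) : PR k)).prod = wc k 0 ^ d := by
  induction d with
  | zero => exact ⟨[], by simp⟩
  | succ d ih =>
    obtain ⟨l, hl⟩ := ih
    refine ⟨l ++ (List.range k).map (ed k 0), ?_⟩
    rw [List.map_append, List.prod_append, hl, pow_succ]
    congr 1
    unfold wc wcr
    rw [Finset.prod_range, List.map_map, ← List.prod_ofFn]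
    congr 1
    rw [List.ofFn_eq_map]
    apply List.ext_getElem
    · simp
    · intro i h1 h2
      simp

theorem fct {k m : ℕ} (hk : 1 ≤ k) (N : Matrix (Fin m) (Fin m) (PR k))
    (h : ∀ i j i' j', pc k ∣ N i j * N i' j' - N i j' * N i' j) :
    ∃ v u : Fin m → PR k, ∀ i j, pc k ∣ N i j - v i * u j := by
  have hE : ∀ i j, ∃ (d : ℕ) (a' : PR k),
      degreeOf (Sum.inr 0) a' = 0 ∧ pc k ∣ wc k 0 ^ d * N i j - a' := fun i j => elm (N i j)
  choose d a' hdeg hdvd using hE
  set D : ℕ := ∑ i, ∑ j, d i j with hD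
  have hle : ∀ i j, d i j ≤ D := fun i j =>
    (Finset.single_le_sum (f := fun j => d i j) (fun _ _ => Nat.zero_le _)
      (Finset.mem_univ j)).trans
      (Finset.single_le_sum (f := fun i => ∑ j, d i j) (fun _ _ => Nat.zero_le _)
        (Finset.mem_univ i))
  let N' : Matrix (Fin m) (Fin m) (PR k) := fun i j => wc k 0 ^ (D - d i j) * a' i j
  have hN'd : ∀ i j, degreeOf (Sum.inr 0) (N' i j) = 0 := fun i j =>
    Fct_mul (Fct_wc k _) (hdeg i j)
  have hN' : ∀ i j, ∃ q, wc k 0 ^ D * N i j = N' i j + pc k * q := by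
    intro i j
    obtain ⟨q, hq⟩ := hdvd i j
    refine ⟨wc k 0 ^ (D - d i j) * q, ?_⟩
    have h1 : wc k 0 ^ D = wc k 0 ^ (D - d i j) * wc k 0 ^ d i j := by
      rw [← pow_add, Nat.sub_add_cancel (hle i j)]
    rw [h1]
    show _ = wc k 0 ^ (D - d i j) * a' i j + _
    linear_combination wc k 0 ^ (D - d i j) * hq
  choose q hq using hN'
  have hmin : ∀ i j i' j', N' i j * N' i' j' = N' i j' * N' i' j := by
    intro i j i' j'
    rw [← sub_eq_zero]
    refine elm_zero (Fct_sub (Fct_mul (hN'd i j) (hN'd i' j')) (Fct_mul (hN'd i j') (hN'd i' j))) ?_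
    obtain ⟨c, hc⟩ := h i j i' j'
    have e1 := hq i j
    have e2 := hq i' j'
    have e3 := hq i j'
    have e4 := hq i' j
    have f1 : N' i j = wc k 0 ^ D * N i j - pc k * q i j := by rw [e1]; ring
    have f2 : N' i' j' = wc k 0 ^ D * N i' j' - pc k * q i' j' := by rw [e2]; ring
    have f3 : N' i j' = wc k 0 ^ D * N i j' - pc k * q i j' := by rw [e3]; ring
    have f4 : N' i' j = wc k 0 ^ D * N i' j - pc k * q i' j := by rw [e4]; ring
    rw [f1, f2, f3, f4]
    refine ⟨wc k 0 ^ D * wc k 0 ^ D * c - wc k 0 ^ D * N i j * q i' j' -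
      q i j * (wc k 0 ^ D * N i' j') + pc k * q i j * q i' j' + wc k 0 ^ D * N i j' * q i' j +
      q i j' * (wc k 0 ^ D * N i' j) - pc k * q i j' * q i' j, ?_⟩
    linear_combination wc k 0 ^ D * wc k 0 ^ D * hc
  obtain ⟨v, u, hvu⟩ := rank_one N' hmin
  obtain ⟨l, hl⟩ := Fct_list k D
  refine fct_down hk l N v u fun i j => ?_
  rw [hl]
  refine ⟨q i j, ?_⟩
  have h1 := hq i j
  have h2 := hvu i j
  rw [h2] at h1
  linear_combination h1

end PadDet.Eq
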