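import Mathlib

/-!
# MP_d7db32_ag, Eq/R/Lin: linear forms with coprime coefficients are prime

`lin_prime`: `MvPolynomial.sumAlgEquiv ℂ κ ι`-like equivalence with polynomials in the variables `ι` over `B = MvPolynomial κ ℂ` (mind the order of the summands; `MvPolynomial.sumToIter` / `sumAlgEquiv`, or
`renameEquiv (Equiv.sumComm κ ι)` before it). The form `∑ c i y i` has total degree `1`; if it is a product, one factor has total degree `0` (`MvPolynomial.totalDegree_mul_of_isDomain`),
so it is a constant `b ∈ B`, `b` divides all `c i` (coefficients), so it divides `c i₁` and `c i₂` and is a unit. Irreducible = prime in a factorial ring (`Irreducible.prime`).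
-/

set_option autoImplicit false

namespace PadDet.Eq

open MvPolynomial

/-- The linear form over the coefficient ring. -/
private noncomputable def LinForm {κ ι : Type} [Fintype ι] (c : ι → MvPolynomial κ ℂ) :
    MvPolynomial ι (MvPolynomial κ ℂ) :=
  ∑ i, C (c i) * X i

private lemma Lin_coeff {κ ι : Type} [Fintype ι] (c : ι → MvPolynomial κ ℂ) (i : ι) :
    coeff (Finsupp.single i 1) (LinForm c) = c i := by
  classical
  unfold LinForm
  rw [coeff_sum]
  rw [Finset.sum_eq_single i]
  · rw [coeff_C_mul, coeff_X, if_pos rfl, mul_one]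
  · intro j _ hj
    rw [coeff_C_mul, coeff_X, if_neg, mul_zero]
    intro he
    exact hj (Finsupp.single_left_injective one_ne_zero he)
  · intro hi
    exact absurd (Finset.mem_univ i) hi

private lemma Lin_deg {κ ι : Type} [Fintype ι] (c : ι → MvPolynomial κ ℂ) :
    (LinForm c).totalDegree ≤ 1 := by
  unfold LinForm
  refine (totalDegree_finsetSum _ _).trans ?_
  refine Finset.sup_le fun i _ => ?_
  refine (totalDegree_mul _ _).trans ?_
  rw [totalDegree_C, totalDegree_X, zero_add]

private lemma Lin_unit {κ ι : Type} [Fintype ι] (c : ι → MvPolynomial κ ℂ) {i₁ i₂ : ι}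
    (h : IsRelPrime (c i₁) (c i₂)) (p q : MvPolynomial ι (MvPolynomial κ ℂ))
    (hpq : LinForm c = p * q) (hp : p.totalDegree = 0) : IsUnit p := by
  have hC := totalDegree_eq_zero_iff_eq_C.mp hp
  have hd : ∀ i, p.coeff 0 ∣ c i := by
    intro i
    refine ⟨coeff (Finsupp.single i 1) q, ?_⟩
    rw [← Lin_coeff c i, hpq, hC, coeff_C_mul]
    simp
  rw [hC]
  exact (h (hd i₁) (hd i₂)).map C

private lemma Lin_irr {κ ι : Type} [Fintype ι] (c : ι → MvPolynomial κ ℂ) {i₁ i₂ : ι}
    (h0 : c i₁ ≠ 0) (h : IsRelPrime (c i₁) (c i₂)) : Irreducible (LinForm c) := by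
  have hF : LinForm c ≠ 0 := by
    intro hz
    apply h0
    rw [← Lin_coeff c i₁, hz, coeff_zero]
  constructor
  · intro hu
    have h1 : IsUnit (constantCoeff (LinForm c)) := hu.map constantCoeff
    have h2 : constantCoeff (LinForm c) = 0 := by
      unfold LinForm
      simp
    rw [h2] at h1
    exact not_isUnit_zero h1
  · intro p q hpq
    have hp : p ≠ 0 := by
      rintro rfl
      exact hF (by rw [hpq, zero_mul])
    have hq : q ≠ 0 := by
      rintro rfl
      exact hF (by rw [hpq, mul_zero])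
    have hdeg : p.totalDegree + q.totalDegree ≤ 1 := by
      rw [← totalDegree_mul_of_isDomain hp hq, ← hpq]
      exact Lin_deg c
    rcases Nat.eq_zero_or_pos p.totalDegree with h3 | h3
    · exact Or.inl (Lin_unit c h p q hpq h3)
    · refine Or.inr (Lin_unit c h q p (by rw [hpq, mul_comm]) (by omega))

theorem lin_prime {κ ι : Type} [Fintype ι] (c : ι → MvPolynomial κ ℂ) {i₁ i₂ : ι} (hne : i₁ ≠ i₂)
    (h0 : c i₁ ≠ 0) (h : IsRelPrime (c i₁) (c i₂)) :
    Prime (∑ i, rename (Sum.inl : κ → κ ⊕ ι) (c i) * X (Sum.inr i)) := by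
  classical
  let e : MvPolynomial (κ ⊕ ι) ℂ ≃ₐ[ℂ] MvPolynomial ι (MvPolynomial κ ℂ) :=
    (renameEquiv ℂ (Equiv.sumComm κ ι)).trans (sumAlgEquiv ℂ ι κ)
  have hl : ∀ p : MvPolynomial κ ℂ, e (rename Sum.inl p) = C p := by
    intro p
    induction p using MvPolynomial.induction_on with
    | C a => simp [e]
    | add p q hp hq => rw [map_add, map_add, hp, hq, map_add]
    | mul_X p i hp =>
      rw [map_mul, map_mul, hp, map_mul]
      congr 1
      simp [e]
  have hr : ∀ i : ι, e (X (Sum.inr i)) = X i := by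
    intro i
    simp [e]
  have he : e (∑ i, rename (Sum.inl : κ → κ ⊕ ι) (c i) * X (Sum.inr i)) = LinForm c := by
    unfold LinForm
    rw [map_sum]
    refine Finset.sum_congr rfl fun i _ => ?_
    rw [map_mul, hl, hr]
  have hP : Prime (LinForm c) := (Lin_irr c h0 h).prime
  rw [← he] at hP
  exact (MulEquiv.prime_iff e.toMulEquiv).mp hP

private lemma Lin_X_dvd {κ : Type} {a b : κ} (hd : (X a : MvPolynomial κ ℂ) ∣ X b) : a = b := by
  exact (X_dvd_X (R := ℂ)).mp hd

/-- Products of variables from disjoint sets are coprime. -/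
theorem prod_coprime {κ : Type} (s t : Finset ℕ) (f f' : ℕ → κ)
    (h : ∀ a ∈ s, ∀ b ∈ t, f a ≠ f' b) :
    IsRelPrime ((∏ a ∈ s, (X (f a) : MvPolynomial κ ℂ)) ^ 2)
      ((∏ b ∈ t, (X (f' b) : MvPolynomial κ ℂ)) ^ 2) := by
  refine IsRelPrime.pow ?_
  refine IsRelPrime.prod_left fun a ha => IsRelPrime.prod_right fun b hb => ?_
  have hX : Prime (X (f a) : MvPolynomial κ ℂ) := X_prime
  refine (hX.irreducible.isRelPrime_iff_not_dvd).mpr fun hd => ?_
  exact h a ha b hb (Lin_X_dvd hd)

end PadDet.Eq
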