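import Mathlib

/-!
# MP_d7db32_ag, Eq/R/Pd: the polynomial of the cycle

Variables `g j` (edges `j, j + 1` of the cycle with `2 k + 1` vertices) and `y i` (vertices). `wc k i` is the product of the variables of the perfect matching
of the cycle without the vertex `i`: the edges `i + 1, i + 3, ..., i + 2 k - 1`. `pc k = ∑ i, wc k i ^ 2 * y i`.
-/

set_option autoImplicit false

namespace PadDet.Eq

open MvPolynomial

/-- The ring of polynomials in the edges and the vertices. -/
abbrev PR (k : ℕ) : Type := MvPolynomial (Fin (2 * k + 1) ⊕ Fin (2 * k + 1)) ℂ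

/-- The edge `i + 1 + 2 s`. -/
def ed (k : ℕ) (i : Fin (2 * k + 1)) (s : ℕ) : Fin (2 * k + 1) :=
  Fin.ofNat (2 * k + 1) (i.val + 1 + 2 * s)

/-- The matching without `i`, in any commutative ring. -/
def wcr {R : Type} [CommRing R] (k : ℕ) (g : Fin (2 * k + 1) → R) (i : Fin (2 * k + 1)) : R :=
  ∏ s ∈ Finset.range k, g (ed k i s)

/-- The matching without `i`. -/
noncomputable def wc (k : ℕ) (i : Fin (2 * k + 1)) : PR k :=
  wcr k (fun j => X (Sum.inl j)) i

/-- The polynomial of the cycle. -/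
noncomputable def pc (k : ℕ) : PR k :=
  ∑ i : Fin (2 * k + 1), wc k i ^ 2 * X (Sum.inr i)

theorem ed_val (k : ℕ) (i : Fin (2 * k + 1)) (s : ℕ) :
    (ed k i s).val = (i.val + 1 + 2 * s) % (2 * k + 1) := rfl

/-- The matchings at the two ends of the edge `j` do not contain it. -/
theorem ed_ne {k : ℕ} (j : Fin (2 * k + 1)) {s : ℕ} (hs : s < k) :
    ed k j s ≠ j ∧ ed k (Fin.ofNat (2 * k + 1) (j.val + 1)) s ≠ j := by
  constructor
  · intro h
    have h1 := congrArg Fin.val h
    rw [ed_val] at h1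
    have h2 := j.isLt
    rcases lt_or_ge (j.val + 1 + 2 * s) (2 * k + 1) with h3 | h3
    · rw [Nat.mod_eq_of_lt h3] at h1
      omega
    · rw [Nat.mod_eq_sub_mod h3, Nat.mod_eq_of_lt (by omega)] at h1
      omega
  · intro h
    have h1 := congrArg Fin.val h
    rw [ed_val, Fin.val_ofNat] at h1
    have h2 := j.isLt
    rcases lt_or_ge (j.val + 1) (2 * k + 1) with h3 | h3
    · rw [Nat.mod_eq_of_lt h3] at h1
      rcases lt_or_ge (j.val + 1 + 1 + 2 * s) (2 * k + 1) with h4 | h4
      · rw [Nat.mod_eq_of_lt h4] at h1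
        omega
      · rw [Nat.mod_eq_sub_mod h4, Nat.mod_eq_of_lt (by omega)] at h1
        omega
    · have h5 : j.val + 1 = 2 * k + 1 := by omega
      rw [h5, Nat.mod_self, Nat.mod_eq_of_lt (by omega)] at h1
      omega

end PadDet.Eq
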