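import Pool.Agent.H.MP_d7db32_ag.Eq.R.Pd
import Pool.Agent.H.MP_d7db32_ag.Eq.R.Lin

/-!
# MP_d7db32_ag, Eq/R/Prm: the edge variables are prime modulo `pc`

`pc_prime`: `lin_prime` with `c i = (wcr k X i) ^ 2`, `i₁ = 0`, `i₂ = 1 = Fin.ofNat _ (0 + 1)`; `wc k i = rename Sum.inl (wcr k X i)`; coprime by `prod_coprime` (`ed k 0 s ≠ ed k 1 s'`: the values are
`1 + 2 s` and `2 + 2 s'`, all at most `2 k`).
`mod_prime`: let `φ = aeval (fun v => if v = inl j then 0 else X v)`, an algebra map. `a - φ a` is divisible by `g = X (inl j)` for all `a` (induction on `a`). `φ (pc k)` is prime: `lin_prime` with `c i = (φ₀ (wcr k X i)) ^ 2`,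
`φ₀` the same map in the edge variables, `i₁ = j`, `i₂ = j + 1` (`Fin.ofNat (2 * k + 1) (j.val + 1)`), `φ₀` does not change their `wcr` (`ed_ne`); coprime by `prod_coprime`: `ed k j s` and
`ed k (j + 1) s'` are `j + 1 + 2 s` and `j + 2 + 2 s'` modulo `2 k + 1`, different. From `a * b = g * u + pc * q`: `φ pc` divides `φ a * φ b`, so it divides one of them, `φ a = φ pc * r`, and
`a = (a - φ a) + (φ pc - pc) * r + pc * r`.
`g_not`: `g j` is not a multiple of `pc` (total degree, or set `y = 0`: `pc` becomes `0`).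
-/

set_option autoImplicit false

namespace PadDet.Eq

open MvPolynomial

private theorem Prm_wc {k : ℕ} (i : Fin (2 * k + 1)) :
    wc k i = rename (Sum.inl : Fin (2 * k + 1) → Fin (2 * k + 1) ⊕ Fin (2 * k + 1))
      (wcr k (fun j => (X j : MvPolynomial (Fin (2 * k + 1)) ℂ)) i) := by
  unfold wc wcr
  rw [map_prod]
  refine Finset.prod_congr rfl fun s _ => ?_
  rw [rename_X]

private theorem Prm_ne_zero {k : ℕ} (i : Fin (2 * k + 1)) :
    (wcr k (fun j => (X j : MvPolynomial (Fin (2 * k + 1)) ℂ)) i) ^ 2 ≠ 0 := by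
  refine pow_ne_zero _ ?_
  unfold wcr
  exact Finset.prod_ne_zero_iff.mpr fun s _ => X_ne_zero _

/-- The matchings at the two ends of an edge have no common edge. -/
private theorem Prm_ed {k : ℕ} (j : Fin (2 * k + 1)) {s t : ℕ} (hs : s < k) (ht : t < k) :
    ed k j s ≠ ed k (Fin.ofNat (2 * k + 1) (j.val + 1)) t := by
  intro h
  have h1 := congrArg Fin.val h
  rw [ed_val, ed_val, Fin.val_ofNat, Nat.add_assoc ((j.val + 1) % (2 * k + 1)) 1 (2 * t),
    Nat.mod_add_mod, Nat.add_assoc j.val 1 (2 * s), Nat.add_assoc j.val 1 (1 + 2 * t)] at h1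
  have h2 : (1 + 2 * s) ≡ (1 + (1 + 2 * t)) [MOD (2 * k + 1)] := Nat.ModEq.add_left_cancel' j.val h1
  unfold Nat.ModEq at h2
  rw [Nat.mod_eq_of_lt (by omega), Nat.mod_eq_of_lt (by omega)] at h2
  omega

private theorem Prm_cop {k : ℕ} (j : Fin (2 * k + 1)) :
    IsRelPrime ((wcr k (fun j => (X j : MvPolynomial (Fin (2 * k + 1)) ℂ)) j) ^ 2)
      ((wcr k (fun j => (X j : MvPolynomial (Fin (2 * k + 1)) ℂ))
        (Fin.ofNat (2 * k + 1) (j.val + 1))) ^ 2) := by
  unfold wcr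
  refine prod_coprime _ _ _ _ fun s hs t ht => ?_
  exact Prm_ed j (Finset.mem_range.mp hs) (Finset.mem_range.mp ht)

private theorem Prm_next {k : ℕ} (hk : 1 ≤ k) (j : Fin (2 * k + 1)) :
    j ≠ Fin.ofNat (2 * k + 1) (j.val + 1) := by
  intro h
  have h1 := congrArg Fin.val h
  rw [Fin.val_ofNat] at h1
  have h2 := j.isLt
  rcases lt_or_ge (j.val + 1) (2 * k + 1) with h3 | h3
  · rw [Nat.mod_eq_of_lt h3] at h1
    omega
  · have h5 : j.val + 1 = 2 * k + 1 := by omega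
    rw [h5, Nat.mod_self] at h1
    omega

theorem pc_prime {k : ℕ} (hk : 1 ≤ k) : Prime (pc k) := by
  have h := lin_prime (fun i => (wcr k (fun j => (X j : MvPolynomial (Fin (2 * k + 1)) ℂ)) i) ^ 2)
    (Prm_next hk 0) (Prm_ne_zero 0) (Prm_cop 0)
  have he : pc k = ∑ i : Fin (2 * k + 1),
      rename (Sum.inl : Fin (2 * k + 1) → Fin (2 * k + 1) ⊕ Fin (2 * k + 1))
        ((wcr k (fun j => (X j : MvPolynomial (Fin (2 * k + 1)) ℂ)) i) ^ 2) * X (Sum.inr i) := by
    unfold pc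
    refine Finset.sum_congr rfl fun i _ => ?_
    rw [Prm_wc, map_pow]
  rw [he]
  exact h

/-- Setting the edge `j` to `0`. -/
private noncomputable def Prm_phi {k : ℕ} (j : Fin (2 * k + 1)) : PR k →ₐ[ℂ] PR k :=
  aeval (fun v : Fin (2 * k + 1) ⊕ Fin (2 * k + 1) => if v = Sum.inl j then 0 else X v)

private noncomputable def Prm_phi0 {k : ℕ} (j : Fin (2 * k + 1)) :
    MvPolynomial (Fin (2 * k + 1)) ℂ →ₐ[ℂ] MvPolynomial (Fin (2 * k + 1)) ℂ :=
  aeval (fun v : Fin (2 * k + 1) => if v = j then 0 else X v)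

private theorem Prm_phi_g {k : ℕ} (j : Fin (2 * k + 1)) : Prm_phi j (X (Sum.inl j)) = 0 := by
  unfold Prm_phi
  rw [aeval_X, if_pos rfl]

private theorem Prm_dvd {k : ℕ} (j : Fin (2 * k + 1)) (a : PR k) :
    (X (Sum.inl j) : PR k) ∣ a - Prm_phi j a := by
  induction a using MvPolynomial.induction_on with
  | C c =>
    have h : Prm_phi j (C c) = C c := (Prm_phi j).commutes c
    rw [h, sub_self]
    exact dvd_zero _
  | add p q hp hq =>
    rw [map_add]
    have e : p + q - (Prm_phi j p + Prm_phi j q) = (p - Prm_phi j p) + (q - Prm_phi j q) := by ring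
    rw [e]
    exact dvd_add hp hq
  | mul_X p n hp =>
    rw [map_mul]
    have e : p * X n - Prm_phi j p * Prm_phi j (X n)
        = (p - Prm_phi j p) * X n + Prm_phi j p * (X n - Prm_phi j (X n)) := by ring
    rw [e]
    refine dvd_add (Dvd.dvd.mul_right hp _) (Dvd.dvd.mul_left ?_ _)
    by_cases hn : n = Sum.inl j
    · rw [hn, Prm_phi_g, sub_zero]
    · have h : Prm_phi j (X n) = X n := by
        unfold Prm_phi
        rw [aeval_X, if_neg hn]
      rw [h, sub_self]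
      exact dvd_zero _

private theorem Prm_comm {k : ℕ} (j : Fin (2 * k + 1)) (p : MvPolynomial (Fin (2 * k + 1)) ℂ) :
    Prm_phi j (rename (Sum.inl : Fin (2 * k + 1) → Fin (2 * k + 1) ⊕ Fin (2 * k + 1)) p)
      = rename (Sum.inl : Fin (2 * k + 1) → Fin (2 * k + 1) ⊕ Fin (2 * k + 1)) (Prm_phi0 j p) := by
  have h : (Prm_phi j).comp (rename (Sum.inl : Fin (2 * k + 1) → Fin (2 * k + 1) ⊕ Fin (2 * k + 1)))
      = (rename (Sum.inl : Fin (2 * k + 1) → Fin (2 * k + 1) ⊕ Fin (2 * k + 1))).comp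
        (Prm_phi0 j) := by
    refine MvPolynomial.algHom_ext fun i => ?_
    rw [AlgHom.comp_apply, AlgHom.comp_apply, rename_X]
    unfold Prm_phi Prm_phi0
    rw [aeval_X, aeval_X]
    by_cases hi : i = j
    · rw [if_pos hi, if_pos (by rw [hi]), map_zero]
    · rw [if_neg hi, if_neg (fun h => hi (Sum.inl_injective h)), rename_X]
  exact congrArg (fun f => f p) h

private theorem Prm_phi0_wcr {k : ℕ} (j i : Fin (2 * k + 1)) (h : ∀ s < k, ed k i s ≠ j) :
    Prm_phi0 j (wcr k (fun j => (X j : MvPolynomial (Fin (2 * k + 1)) ℂ)) i)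
      = wcr k (fun j => (X j : MvPolynomial (Fin (2 * k + 1)) ℂ)) i := by
  unfold wcr
  rw [map_prod]
  refine Finset.prod_congr rfl fun s hs => ?_
  unfold Prm_phi0
  rw [aeval_X, if_neg (h s (Finset.mem_range.mp hs))]

private theorem Prm_phi_prime {k : ℕ} (hk : 1 ≤ k) (j : Fin (2 * k + 1)) :
    Prime (Prm_phi j (pc k)) := by
  have e1 := Prm_phi0_wcr j j (fun s hs => (ed_ne j hs).1)
  have e2 := Prm_phi0_wcr j (Fin.ofNat (2 * k + 1) (j.val + 1)) (fun s hs => (ed_ne j hs).2)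
  have h0 := Prm_ne_zero j
  have hc := Prm_cop j
  rw [← e1] at h0
  rw [← e1, ← e2] at hc
  have h := lin_prime (fun i => (Prm_phi0 j
    (wcr k (fun j => (X j : MvPolynomial (Fin (2 * k + 1)) ℂ)) i)) ^ 2) (Prm_next hk j) h0 hc
  have he : Prm_phi j (pc k) = ∑ i : Fin (2 * k + 1),
      rename (Sum.inl : Fin (2 * k + 1) → Fin (2 * k + 1) ⊕ Fin (2 * k + 1))
        ((Prm_phi0 j (wcr k (fun j => (X j : MvPolynomial (Fin (2 * k + 1)) ℂ)) i)) ^ 2)
          * X (Sum.inr i) := by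
    unfold pc
    rw [map_sum]
    refine Finset.sum_congr rfl fun i _ => ?_
    rw [map_mul, map_pow, Prm_wc, Prm_comm, ← map_pow]
    congr 1
    unfold Prm_phi
    rw [aeval_X, if_neg (fun h => by cases h)]
  rw [he]
  exact h

private theorem Prm_lift {k : ℕ} (j : Fin (2 * k + 1)) {a : PR k}
    (h : Prm_phi j (pc k) ∣ Prm_phi j a) :
    ∃ u q, a = X (Sum.inl j) * u + pc k * q := by
  obtain ⟨r, hr⟩ := h
  obtain ⟨u₁, hu₁⟩ := Prm_dvd j a
  obtain ⟨u₂, hu₂⟩ := Prm_dvd j (pc k)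
  refine ⟨u₁ - u₂ * r, r, ?_⟩
  linear_combination hu₁ + hr - r * hu₂

theorem mod_prime {k : ℕ} (hk : 1 ≤ k) (j : Fin (2 * k + 1)) {a b : PR k}
    (h : ∃ u q, a * b = X (Sum.inl j) * u + pc k * q) :
    (∃ u q, a = X (Sum.inl j) * u + pc k * q) ∨ ∃ u q, b = X (Sum.inl j) * u + pc k * q := by
  obtain ⟨u, q, h⟩ := h
  have h1 := congrArg (Prm_phi j) h
  rw [map_mul, map_add, map_mul, map_mul, Prm_phi_g, zero_mul, zero_add] at h1
  rcases (Prm_phi_prime hk j).2.2 _ _ ⟨Prm_phi j q, h1⟩ with h2 | h2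
  · exact Or.inl (Prm_lift j h2)
  · exact Or.inr (Prm_lift j h2)

theorem g_not {k : ℕ} (j : Fin (2 * k + 1)) : ¬ pc k ∣ X (Sum.inl j) := by
  rintro ⟨r, hr⟩
  have h1 := congrArg (aeval (R := ℂ) (fun v : Fin (2 * k + 1) ⊕ Fin (2 * k + 1) =>
    Sum.elim (fun i => (X (Sum.inl i) : PR k)) (fun _ => 0) v)) hr
  have h2 : aeval (R := ℂ) (fun v : Fin (2 * k + 1) ⊕ Fin (2 * k + 1) =>
      Sum.elim (fun i => (X (Sum.inl i) : PR k)) (fun _ => 0) v) (pc k) = 0 := by
    unfold pc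
    rw [map_sum]
    refine Finset.sum_eq_zero fun i _ => ?_
    rw [map_mul, aeval_X, Sum.elim_inr, mul_zero]
  rw [map_mul, h2, zero_mul, aeval_X, Sum.elim_inl] at h1
  exact X_ne_zero _ h1

end PadDet.Eq
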