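import Pool.Agent.H.MP_d7db32_ag.Eq.R.Fct
import Pool.Agent.H.MP_d7db32_ag.Eq.R.Adj
import Pool.Agent.H.MP_d7db32_ag.Eq.R.Cyc

/-!
# MP_d7db32_ag, Eq/R/Reg: every determinantal expression of the form is regular

`reg`: `k = 0`: `det (L + x M(E_00)) = c F`, `F (x E_00) = 2 x`; if `adj L = 0` then the determinant of `L + x M` has no linear term: (`det (L + x M)` is a polynomial in `x`, derivative at `0` = trace (adj L * M);
or: `adj L = 0` means that all minors of size `m - 1` vanish, so `rank L ≤ m - 2` and `x ^ 2` divides the determinant; `s1` in Eq/S1 also gives it: `m ≤ rank L + 1`).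
`k ≥ 1`: `Q a b = C (L a b) + ∑ j, X (inl j) * C (M (E_{j, nx j} - E_{nx j, j}) a b) + ∑ i, X (inr i) * C (M E_ii a b)`; `Q` evaluated at `(g, y)` is `L + M (cyM k g y)`, so by `cyc_val` and
`MvPolynomial.funext` `Q.det = C (2 ^ (2 k + 1) * c) * pc k`. `adj_minor`, `fct`, `adj_unimod`. Evaluate at `0` (`eval (fun _ => 0)`, `pc` goes to `0`): `∑ l, u l 0 * ω l 0 = c' ≠ 0`, so some `u j` is not `0` at `0`, the same for some
`v i`, and `adj (L) i j = (adj Q i j) (0) = v i (0) * u j (0) ≠ 0` (`RingHom.map_adjugate`). `m ≠ 0` because `det` is not constant.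
-/

set_option autoImplicit false

namespace PadDet.Eq

open Matrix MvPolynomial

private theorem Reg_Fv_zero {n : ℕ} : Fv (0 : Matrix (Fin n) (Fin n) ℂ) = 0 := by
  unfold Fv
  rw [Matrix.transpose_zero, add_zero, mul_zero, Matrix.trace_zero]

private theorem Reg_m {k m : ℕ} {c : ℂ} {L : Matrix (Fin m) (Fin m) ℂ}
    {M : Matrix (Fin (2 * k + 1)) (Fin (2 * k + 1)) ℂ →ₗ[ℂ] Matrix (Fin m) (Fin m) ℂ}
    (hdet : ∀ X, (L + M X).det = c * Fv X) : L.det = 0 ∧ m ≠ 0 := by
  have h0 : L.det = 0 := by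
    have h1 := hdet 0
    rwa [map_zero, add_zero, Reg_Fv_zero, mul_zero] at h1
  refine ⟨h0, fun hm => ?_⟩
  subst hm
  rw [Matrix.det_fin_zero] at h0
  exact one_ne_zero h0

private theorem Reg_zero {m : ℕ} {c : ℂ} (hc : c ≠ 0) (L M : Matrix (Fin m) (Fin m) ℂ)
    (hm : m ≠ 0) (hdet : ∀ x : ℂ, (L + x • M).det = c * x) : L.adjugate ≠ 0 := by
  intro hadj
  obtain ⟨Q, hQ⟩ : ∃ Q : Matrix (Fin m) (Fin m) (Polynomial ℂ),
      Q = L.map Polynomial.C + (Polynomial.X : Polynomial ℂ) • M.map Polynomial.C := ⟨_, rfl⟩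
  have hev : ∀ x : ℂ, Q.map (Polynomial.eval x) = L + x • M := by
    intro x
    ext a b
    rw [hQ]
    simp
    ring
  have hQd : Q.det = Polynomial.C c * Polynomial.X := by
    refine Polynomial.funext fun x => ?_
    have h1 : Polynomial.eval x Q.det = (Q.map (Polynomial.eval x)).det := by
      have h2 := RingHom.map_det (Polynomial.evalRingHom x) Q
      exact h2
    rw [h1, hev, hdet, Polynomial.eval_mul, Polynomial.eval_C, Polynomial.eval_X]
  have hQa : ∀ a b, Polynomial.X ∣ Q.adjugate a b := by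
    intro a b
    rw [Polynomial.X_dvd_iff, Polynomial.coeff_zero_eq_eval_zero]
    have h2 := RingHom.map_adjugate (Polynomial.evalRingHom (0 : ℂ)) Q
    have h3 := congrFun (congrFun h2 a) b
    have h4 : (Polynomial.evalRingHom (0 : ℂ)).mapMatrix Q = L := by
      refine (hev 0).trans ?_
      rw [zero_smul, add_zero]
    rw [h4, hadj] at h3
    exact h3
  choose R hR using hQa
  have h1 := Matrix.mul_adjugate Q
  have h2 : Q.adjugate = (Polynomial.X : Polynomial ℂ) • Matrix.of R := by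
    ext a b
    rw [hR]
    rfl
  rw [h2, Matrix.mul_smul, hQd] at h1
  have h3 : Q * Matrix.of R = (Polynomial.C c) • (1 : Matrix (Fin m) (Fin m) (Polynomial ℂ)) := by
    ext1 a b
    have h4 := congrFun (congrFun h1 a) b
    rw [Matrix.smul_apply, Matrix.smul_apply, smul_eq_mul, smul_eq_mul] at h4
    rw [Matrix.smul_apply, smul_eq_mul]
    have h5 : (Polynomial.X : Polynomial ℂ) ≠ 0 := Polynomial.X_ne_zero
    apply mul_left_cancel₀ h5
    rw [h4]
    ring
  have h4 := congrArg Matrix.det h3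
  rw [Matrix.det_mul, hQd, Matrix.det_smul, Matrix.det_one, mul_one, Fintype.card_fin] at h4
  have h5 := congrArg (Polynomial.eval 0) h4
  rw [Polynomial.eval_mul, Polynomial.eval_mul, Polynomial.eval_X, mul_zero, zero_mul,
    Polynomial.eval_pow, Polynomial.eval_C] at h5
  exact pow_ne_zero m hc h5.symm

private theorem Reg_wc (k : ℕ) (φ : Fin (2 * k + 1) ⊕ Fin (2 * k + 1) → ℂ)
    (i : Fin (2 * k + 1)) : eval φ (wc k i) = wcr k (fun j => φ (Sum.inl j)) i := by
  unfold wc wcr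
  rw [map_prod]
  exact Finset.prod_congr rfl fun s _ => eval_X _

private theorem Reg_pc (k : ℕ) (φ : Fin (2 * k + 1) ⊕ Fin (2 * k + 1) → ℂ) :
    eval φ (pc k) = ∑ i, wcr k (fun j => φ (Sum.inl j)) i ^ 2 * φ (Sum.inr i) := by
  unfold pc
  rw [map_sum]
  exact Finset.sum_congr rfl fun i _ => by rw [map_mul, map_pow, Reg_wc, eval_X]

theorem reg {k m : ℕ} {c : ℂ} (hc : c ≠ 0) (L : Matrix (Fin m) (Fin m) ℂ)
    (M : Matrix (Fin (2 * k + 1)) (Fin (2 * k + 1)) ℂ →ₗ[ℂ] Matrix (Fin m) (Fin m) ℂ)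
    (hdet : ∀ X, (L + M X).det = c * Fv X) : L.adjugate ≠ 0 := by
  obtain ⟨h0, hm⟩ := Reg_m hdet
  rcases Nat.eq_zero_or_pos k with hk | hk
  · subst hk
    refine Reg_zero (c := c * 2) (mul_ne_zero hc two_ne_zero) L (M 1) hm fun x => ?_
    have h1 := hdet (x • 1)
    rw [map_smul] at h1
    rw [h1]
    have h2 : Fv (x • (1 : Matrix (Fin (2 * 0 + 1)) (Fin (2 * 0 + 1)) ℂ)) = 2 * x := by
      unfold Fv
      have h3 : (x • (1 : Matrix (Fin (2 * 0 + 1)) (Fin (2 * 0 + 1)) ℂ))ᵀ = x • 1 := by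
        rw [Matrix.transpose_smul, Matrix.transpose_one]
      have h4 : (0 : Matrix (Fin (2 * 0 + 1)) (Fin (2 * 0 + 1)) ℂ).adjugate = 1 :=
        Matrix.adjugate_fin_one _
      rw [h3, sub_self, h4, one_mul, ← two_smul ℂ, smul_smul, Matrix.trace_smul, Matrix.trace_one]
      simp
    rw [h2]
    ring
  · obtain ⟨Q, hQ⟩ : ∃ Q : Matrix (Fin m) (Fin m) (PR k), Q = Matrix.of fun a b =>
        C (L a b) + ∑ j, X (Sum.inl j) *
          C (M (Matrix.single j (nx k j) 1 - Matrix.single (nx k j) j 1) a b) +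
          ∑ i, X (Sum.inr i) * C (M (Matrix.single i i 1) a b) := ⟨_, rfl⟩
    have hev : ∀ φ : Fin (2 * k + 1) ⊕ Fin (2 * k + 1) → ℂ, (eval φ).mapMatrix Q =
        L + M (cyM k (fun j => φ (Sum.inl j)) (fun i => φ (Sum.inr i))) := by
      intro φ
      ext a b
      rw [RingHom.mapMatrix_apply, Matrix.map_apply, hQ, Matrix.of_apply, Matrix.add_apply]
      unfold cyM
      rw [map_add (eval φ), map_add (eval φ), map_sum (eval φ), map_sum (eval φ), map_add M,
        map_sum M, map_sum M, Matrix.add_apply, Matrix.sum_apply, Matrix.sum_apply, eval_C,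
        add_assoc]
      congr 1
      congr 1
      · refine Finset.sum_congr rfl fun j _ => ?_
        rw [map_smul, Matrix.smul_apply, map_mul, eval_X, eval_C, smul_eq_mul]
      · refine Finset.sum_congr rfl fun j _ => ?_
        rw [map_smul, Matrix.smul_apply, map_mul, eval_X, eval_C, smul_eq_mul]
    have hd : Q.det = C (2 ^ (2 * k + 1) * c) * pc k := by
      refine MvPolynomial.funext fun φ => ?_
      rw [RingHom.map_det, hev, hdet, cyc_val hk, map_mul, eval_C, Reg_pc]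
      ring
    have hu : IsUnit (C (2 ^ (2 * k + 1) * c) : PR k) := by
      have h1 : (2 : ℂ) ^ (2 * k + 1) * c ≠ 0 := mul_ne_zero (pow_ne_zero _ two_ne_zero) hc
      exact (isUnit_iff_ne_zero.2 h1).map (C : ℂ →+* PR k)
    have hp := pc_prime hk
    obtain ⟨v, u, hvu⟩ := fct hk Q.adjugate (fun i j i' j' => adj_minor Q hp hd i j i' j')
    obtain ⟨⟨ω, hω⟩, ⟨ω', hω'⟩⟩ := adj_unimod hm Q hu hp hd hvu
    -- evaluation at the origin
    have hpc0 : eval (fun _ => (0 : ℂ)) (pc k) = 0 := by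
      rw [Reg_pc]
      exact Finset.sum_eq_zero fun i _ => mul_zero _
    have hdv : ∀ a : PR k, pc k ∣ a → eval (fun _ => (0 : ℂ)) a = 0 := by
      rintro a ⟨b, rfl⟩
      rw [map_mul, hpc0, zero_mul]
    have hc' : (2 : ℂ) ^ (2 * k + 1) * c ≠ 0 := mul_ne_zero (pow_ne_zero _ two_ne_zero) hc
    have h1 := hdv _ hω
    have h2 := hdv _ hω'
    rw [map_sub, eval_C, map_sum, sub_eq_zero] at h1 h2
    obtain ⟨j, -, hj⟩ : ∃ j ∈ Finset.univ, eval (fun _ => (0 : ℂ)) (u j * ω j) ≠ 0 :=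
      Finset.exists_ne_zero_of_sum_ne_zero (h1 ▸ hc')
    obtain ⟨i, -, hi⟩ : ∃ i ∈ Finset.univ, eval (fun _ => (0 : ℂ)) (ω' i * v i) ≠ 0 :=
      Finset.exists_ne_zero_of_sum_ne_zero (h2 ▸ hc')
    rw [map_mul] at hi hj
    have h3 := hdv _ (hvu i j)
    rw [map_sub, map_mul, sub_eq_zero] at h3
    have h4 := RingHom.map_adjugate (eval (fun _ => (0 : ℂ))) Q
    have h5 := congrFun (congrFun h4 i) j
    rw [hev] at h5
    have h6 : cyM k (fun _ => (0 : ℂ)) (fun _ => (0 : ℂ)) = 0 := by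
      unfold cyM
      simp
    rw [h6, map_zero, add_zero] at h5
    intro h7
    rw [h7] at h5
    have h8 : eval (fun _ => (0 : ℂ)) (Q.adjugate i j) = 0 := h5
    rw [h8] at h3
    exact mul_ne_zero (right_ne_zero_of_mul hi) (left_ne_zero_of_mul hj) h3.symm

/-- The rank of a singular matrix whose adjugate is not zero. If there are two independent kernel vectors, one of their combinations `x ≠ 0` has `x i = 0`, and `adj L i j` is the determinant of `L` with
the row `j` replaced by the unit vector `i` (`Matrix.adjugate_apply`), which kills `x`. -/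
theorem rank_of_adj {m : ℕ} {L : Matrix (Fin m) (Fin m) ℂ} (h : L.adjugate ≠ 0)
    (h0 : L.det = 0) : L.rank + 1 = m := by
  have hrn : L.rank + Module.finrank ℂ (LinearMap.ker L.mulVecLin) = m := by
    have h1 := LinearMap.finrank_range_add_finrank_ker L.mulVecLin
    rw [Module.finrank_fin_fun] at h1
    exact h1
  have hpos : 0 < Module.finrank ℂ (LinearMap.ker L.mulVecLin) := by
    obtain ⟨v, hv, hv0⟩ := Matrix.exists_mulVec_eq_zero_iff.2 h0
    rw [Module.finrank_pos_iff_exists_ne_zero]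
    exact ⟨⟨v, by rw [LinearMap.mem_ker, Matrix.mulVecLin_apply, hv0]⟩, fun h1 =>
      hv (congrArg Subtype.val h1)⟩
  have hle : Module.finrank ℂ (LinearMap.ker L.mulVecLin) ≤ 1 := by
    by_contra hlt
    rw [not_le] at hlt
    apply h
    ext i j
    obtain ⟨f, hf⟩ : ∃ f : LinearMap.ker L.mulVecLin →ₗ[ℂ] ℂ, ∀ x, f x = x.1 i :=
      ⟨(LinearMap.proj i).comp (LinearMap.ker L.mulVecLin).subtype, fun x => rfl⟩
    have h1 : LinearMap.ker f ≠ ⊥ := LinearMap.ker_ne_bot_of_finrank_lt (by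
      rw [Module.finrank_self]
      exact hlt)
    obtain ⟨x, hx, hx0⟩ := Submodule.exists_mem_ne_zero_of_ne_bot h1
    rw [LinearMap.mem_ker, hf] at hx
    have hLx : L *ᵥ x.1 = 0 := by
      have h2 := x.2
      rwa [LinearMap.mem_ker, Matrix.mulVecLin_apply] at h2
    rw [Matrix.adjugate_apply, Matrix.zero_apply]
    refine Matrix.exists_mulVec_eq_zero_iff.1 ⟨x.1, fun h2 => hx0 (Subtype.ext h2), ?_⟩
    funext l
    rw [Matrix.mulVec, Pi.zero_apply]
    by_cases hl : l = j
    · rw [hl, Matrix.updateRow_self, single_dotProduct, one_mul, hx]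
    · rw [Matrix.updateRow_ne hl]
      exact congrFun hLx l
  omega

end PadDet.Eq
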